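import Pool.Agent.Lib.FW.SpecR1

/-!
# FW, part R1: assembly
-/

open scoped Pointwise NumberField nonZeroDivisors

noncomputable section

namespace Pool.Agent.FW

open Pool.Agent.MuZ NumberField IsDedekindDomain

theorem tR1A : S_R1A := by
  intro hAbs hFld hIne hExt p hp hp2 K hK g hg hg0
  obtain ⟨M, hKM, hMfin, hst, hker⟩ := hFld p K g hg
  obtain ⟨L, iF, iN, iA, iG, hrank, htriv, hspl⟩ :=
    hExt hIne p K M hKM hK hMfin hst g hg hg0 hker
  obtain ⟨a, ha1, ha2, ha3⟩ := hAbs p K L hrank hp.out hp2 htriv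
  exact ⟨a, ha1, ha2, fun v hv => ha3 v (hspl v hv)⟩

end Pool.Agent.FW
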