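import Pool.Agent.Lib.FW.SpecR1

/-!
# FW, part R1: the theorem for abstract number fields
-/

open scoped Pointwise NumberField nonZeroDivisors

noncomputable section

namespace Pool.Agent.FW

open Pool.Agent.MuZ NumberField IsDedekindDomain

theorem tRAbs (h1 : S_RCh) (h2 : S_RHB) (h3 : S_RUn) (h4 : S_HInv) (h5 : S_RInv) (h6 : S_RSpl)
    (h7 : S_RSp2) (h8 : S_RFac) : S_RAbs := by
  intro p K L _ _ _ _ _ _ hdeg hp hp2 htriv
  subst hdeg
  have hcard : Nat.card Gal(L/K) = Module.finrank K L := IsGalois.card_aut_eq_finrank K L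
  have : Fact (Module.finrank K L).Prime := ⟨hp⟩
  have : IsCyclic Gal(L/K) := isCyclic_of_prime_card hcard
  obtain ⟨s, hs⟩ := IsCyclic.exists_generator (α := Gal(L/K))
  have hInv : InvExt K L := h4 K L htriv
  obtain ⟨χ, hχ0, hχ1, hχ2⟩ := h1 (Module.finrank K L) (Additive Lˣ)
    (Additive (FractionalIdeal (𝓞 L)⁰ L)ˣ) (Additive (FractionalIdeal (𝓞 K)⁰ K)ˣ) (frV s) (frI s)
    (frD L) (frE K L) hp (h2 K L s hs) (h3 K L s hs hp hp2) (frI_frE s) (h5 K L s hs hInv)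
  have hpr : ∀ x : Additive Kˣ, χ (frD K x) = 0 := by
    intro x
    refine hχ1 _ _ ?_ (frE_frD x)
    apply Additive.toMul.injective
    ext
    exact s.commutes _
  obtain ⟨h9, h10⟩ := h8 K (Module.finrank K L) χ hpr
  refine ⟨fun v => χ (prU v), h9, fun h0 => hχ0 (h10 fun v => congrFun h0 v), ?_⟩
  rintro v ⟨w, hw1, hw2, hw3, hw4⟩
  obtain ⟨y, hy⟩ := h7 K L (Module.finrank K L) s v w hw2
    (h6 K L s hs htriv v.asIdeal w hw1 hw2 hw3 hw4)
  exact hχ2 _ y hy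

end Pool.Agent.FW
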