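import Pool.Agent.Lib.FW.SpecR1

/-!
# FW, part R1, module RAm: invariant classes modulo classes of invariant ideals
-/

open scoped Pointwise NumberField nonZeroDivisors

noncomputable section

namespace Pool.Agent.FW

open Pool.Agent.MuZ NumberField IsDedekindDomain

private theorem RAm_tele {A : Type} [AddCommGroup A] (p : ℕ) (s : A →+ A) (x : A) :
    nrm p s (s x - x) = (s^[p]) x - x := by
  rw [map_sub, nrm_apply, nrm_apply, ← Finset.sum_sub_distrib]
  have h : ∀ i ∈ Finset.range p, (s^[i]) (s x) - (s^[i]) x = (s^[i + 1]) x - (s^[i]) x := by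
    intro i _
    rw [Function.iterate_succ_apply]
  rw [Finset.sum_congr rfl h, Finset.sum_range_sub (fun i => (s^[i]) x) p]
  rfl

private theorem RAm_s {A : Type} [AddCommGroup A] (p : ℕ) (s : A →+ A) (x : A)
    (hs : (s^[p]) x = x) : s (nrm p s x) - nrm p s x = 0 := by
  rw [nrm_apply, map_sum, ← Finset.sum_sub_distrib]
  have h : ∀ i ∈ Finset.range p, s ((s^[i]) x) - (s^[i]) x = (s^[i + 1]) x - (s^[i]) x := by
    intro i _
    rw [Function.iterate_succ_apply']
  rw [Finset.sum_congr rfl h, Finset.sum_range_sub (fun i => (s^[i]) x) p, hs]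
  exact sub_self x

private theorem RAm_d {V I : Type} [AddCommGroup V] [AddCommGroup I] (p : ℕ) (s : V →+ V)
    (t : I →+ I) (d : V →+ I) (cm : ∀ x, t (d x) = d (s x)) (x : V) :
    d (nrm p s x) = nrm p t (d x) := by
  have h : ∀ i, (t^[i]) (d x) = d ((s^[i]) x) := by
    intro i
    induction i with
    | zero => rfl
    | succ i ih => rw [Function.iterate_succ_apply', Function.iterate_succ_apply', ih, cm]
  rw [nrm_apply, nrm_apply, map_sum]
  exact Finset.sum_congr rfl fun i _ => (h i).symm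

theorem tRAm : S_RAm := by
  intro p V I _ _ s t d hB hb
  obtain ⟨W, hW⟩ : ∃ W : AddSubgroup (I × V), W =
      ((t - AddMonoidHom.id I).comp (AddMonoidHom.fst I V) -
        d.comp (AddMonoidHom.snd I V)).ker := ⟨_, rfl⟩
  have hWm : ∀ w : I × V, w ∈ W ↔ t w.1 - w.1 = d w.2 := by
    intro w
    rw [hW, AddMonoidHom.mem_ker]
    show t w.1 - w.1 - d w.2 = 0 ↔ _
    exact sub_eq_zero
  obtain ⟨π₁, h₁⟩ : ∃ π₁ : W →+ I, π₁ = (AddMonoidHom.fst I V).comp W.subtype := ⟨_, rfl⟩
  obtain ⟨ν, hν⟩ : ∃ ν : W →+ V, ν = (nrm p s).comp ((AddMonoidHom.snd I V).comp W.subtype) :=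
    ⟨_, rfl⟩
  have h₁' : ∀ w : W, π₁ w = (w : I × V).1 := fun w => by rw [h₁]; rfl
  have hν' : ∀ w : W, ν w = nrm p s (w : I × V).2 := fun w => by rw [hν]; rfl
  have hr1 : π₁.range = d.range.comap (t - AddMonoidHom.id I) := by
    ext x
    rw [AddMonoidHom.mem_range, AddSubgroup.mem_comap, AddMonoidHom.mem_range]
    constructor
    · rintro ⟨w, rfl⟩
      refine ⟨(w : I × V).2, ?_⟩
      rw [h₁']
      exact ((hWm _).1 w.2).symm
    · rintro ⟨α, hα⟩
      refine ⟨⟨(x, α), (hWm _).2 hα.symm⟩, ?_⟩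
      rw [h₁']
  have hr2 : ν.range ≤ d.ker ⊓ (s - AddMonoidHom.id V).ker := by
    rintro _ ⟨w, rfl⟩
    rw [hν', AddSubgroup.mem_inf]
    refine ⟨?_, ?_⟩
    · rw [AddMonoidHom.mem_ker, RAm_d p s t d hB.cm, ← (hWm _).1 w.2, RAm_tele, hB.tp, sub_self]
    · rw [AddMonoidHom.mem_ker]
      exact RAm_s p s _ (hB.sp _)
  have hi1 : ((d.range ⊔ (t - AddMonoidHom.id I).ker).comap π₁).index =
      (d.range ⊔ (t - AddMonoidHom.id I).ker).relIndex
        (d.range.comap (t - AddMonoidHom.id I)) := by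
    rw [AddSubgroup.index_comap, hr1]
  have hi2 : ((d.ker.map (nrm p s)).comap ν).index =
      (d.ker.map (nrm p s)).relIndex ν.range := AddSubgroup.index_comap _ _
  have hle : (d.ker.map (nrm p s)).comap ν ≤
      (d.range ⊔ (t - AddMonoidHom.id I).ker).comap π₁ := by
    intro w hw
    rw [AddSubgroup.mem_comap, AddSubgroup.mem_map] at hw
    obtain ⟨e, he, hew⟩ := hw
    rw [AddMonoidHom.mem_ker] at he
    rw [hν'] at hew
    have h1 : nrm p s ((w : I × V).2 - e) = 0 := by rw [map_sub, hew, sub_self]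
    obtain ⟨y, hy⟩ := hB.h90 _ h1
    have h2 : t (w : I × V).1 - (w : I × V).1 = t (d y) - d y := by
      rw [(hWm _).1 w.2, hB.cm, ← map_sub, ← hy, map_sub, he, sub_zero]
    rw [AddSubgroup.mem_comap, h₁']
    have h3 : (w : I × V).1 = d y + ((w : I × V).1 - d y) := by abel
    rw [h3]
    refine AddSubgroup.add_mem_sup ⟨y, rfl⟩ ?_
    rw [AddMonoidHom.mem_ker]
    show t ((w : I × V).1 - d y) - ((w : I × V).1 - d y) = 0
    rw [map_sub]
    calc t (w : I × V).1 - t (d y) - ((w : I × V).1 - d y)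
        = (t (w : I × V).1 - (w : I × V).1) - (t (d y) - d y) := by abel
      _ = 0 := by rw [h2, sub_self]
  have hne : (d.ker.map (nrm p s)).relIndex ν.range ≠ 0 :=
    fun h => hb (AddSubgroup.relIndex_eq_zero_of_le_right hr2 h)
  rw [← hi1]
  calc ((d.range ⊔ (t - AddMonoidHom.id I).ker).comap π₁).index
      ≤ ((d.ker.map (nrm p s)).comap ν).index := by
        refine Nat.le_of_dvd (Nat.pos_of_ne_zero ?_) (AddSubgroup.index_dvd_of_le hle)
        rw [hi2]
        exact hne
    _ = (d.ker.map (nrm p s)).relIndex ν.range := hi2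
    _ ≤ (d.ker.map (nrm p s)).relIndex (d.ker ⊓ (s - AddMonoidHom.id V).ker) :=
        AddSubgroup.relIndex_le_of_le_right hr2 hb

end Pool.Agent.FW
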