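import Pool.Agent.Lib.FW.SpecR1

/-!
# FW, stage 2, part R1, module RCh

The class character, pure algebra.
-/

open scoped Pointwise NumberField nonZeroDivisors

noncomputable section

namespace Pool.Agent.FW

open Pool.Agent.MuZ NumberField IsDedekindDomain

private theorem rch_iter {V I : Type} [AddCommGroup V] [AddCommGroup I] (s : V →+ V)
    (t : I →+ I) (d : V →+ I) (h : ∀ x, t (d x) = d (s x)) (i : ℕ) (x : V) :
    (t^[i]) (d x) = d ((s^[i]) x) := by
  induction i generalizing x with
  | zero => rfl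
  | succ n ih => rw [Function.iterate_succ_apply, Function.iterate_succ_apply, h, ih]

private theorem rch_nrm {V I : Type} [AddCommGroup V] [AddCommGroup I] (p : ℕ) (s : V →+ V)
    (t : I →+ I) (d : V →+ I) (h : ∀ x, t (d x) = d (s x)) (x : V) :
    nrm p t (d x) = d (nrm p s x) := by
  rw [nrm_apply, nrm_apply, map_sum]
  exact Finset.sum_congr rfl fun i _ => rch_iter s t d h i x

private theorem rch_tele {V : Type} [AddCommGroup V] (p : ℕ) (s : V →+ V) (x : V) :
    nrm p s (s x) - nrm p s x = (s^[p]) x - x := by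
  rw [nrm_apply, nrm_apply, ← Finset.sum_sub_distrib]
  have h : ∀ i ∈ Finset.range p, (s^[i]) (s x) - (s^[i]) x = (s^[i + 1]) x - (s^[i]) x := by
    intro i _
    rw [Function.iterate_succ_apply]
  rw [Finset.sum_congr rfl h, Finset.sum_range_sub (fun i => (s^[i]) x) p]
  rfl

private theorem rch_inv {V : Type} [AddCommGroup V] (p : ℕ) (s : V →+ V) (x : V) :
    s (nrm p s x) = nrm p s (s x) := by
  rw [nrm_apply, nrm_apply, map_sum]
  refine Finset.sum_congr rfl fun i _ => ?_
  exact (Function.iterate_succ_apply' (s : V → V) i x).symm.trans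
    (Function.iterate_succ_apply (s : V → V) i x)

private theorem rch_fix {V : Type} [AddCommGroup V] (p : ℕ) (s : V →+ V) (x : V)
    (h : s x = x) : nrm p s x = p • x := by
  rw [nrm_apply]
  have h1 : ∀ i ∈ Finset.range p, (s^[i]) x = x := fun i _ => Function.iterate_fixed h i
  rw [Finset.sum_congr rfl h1, Finset.sum_const, Finset.card_range]

/-- **RCh.** The class character, pure algebra. -/
theorem tRCh (h1 : S_RLin) (h2 : S_RIq) : S_RCh := by
  intro p V I C _ _ _ s t d ι hp hB hQ hfix hinv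
  obtain ⟨i1, i2, i3⟩ := h2 p V I s t d hp hB hQ
  set P0 : AddSubgroup I := (s - AddMonoidHom.id V).ker.map d with hP0
  set R : AddSubgroup I := d.range ⊔ (t - AddMonoidHom.id I).range with hR
  set I0 : AddSubgroup I := (t - AddMonoidHom.id I).ker with hI0
  have mI0 : ∀ x, x ∈ I0 ↔ t x = x := by
    intro x
    rw [hI0, AddMonoidHom.mem_ker, AddMonoidHom.sub_apply, AddMonoidHom.id_apply, sub_eq_zero]
  have mV0 : ∀ x, x ∈ (s - AddMonoidHom.id V).ker ↔ s x = x := by
    intro x
    rw [AddMonoidHom.mem_ker, AddMonoidHom.sub_apply, AddMonoidHom.id_apply, sub_eq_zero]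
  have hle : R ≤ P0.comap (nrm p t) := by
    rw [hR, sup_le_iff]
    constructor
    · rintro _ ⟨x, rfl⟩
      rw [AddSubgroup.mem_comap, rch_nrm p s t d hB.cm x]
      refine AddSubgroup.mem_map_of_mem d ?_
      rw [mV0, rch_inv]
      have := rch_tele p s x
      rw [hB.sp, sub_self, sub_eq_zero] at this
      exact this
    · rintro _ ⟨x, rfl⟩
      rw [AddSubgroup.mem_comap, AddMonoidHom.sub_apply, AddMonoidHom.id_apply, map_sub,
        rch_tele, hB.tp, sub_self]
      exact zero_mem _
  have hN : (nrm p t).range ≤ I0 := by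
    rintro _ ⟨x, rfl⟩
    rw [mI0, rch_inv]
    have := rch_tele p t x
    rw [hB.tp, sub_self, sub_eq_zero] at this
    exact this
  have hP : P0 ≤ I0 := by
    rintro _ ⟨x, hx, rfl⟩
    rw [mI0, hB.cm, (mV0 x).1 hx]
  have hd1 : P0.relIndex (nrm p t).range ≤ R.index := by
    rw [← AddSubgroup.index_comap]
    exact Nat.le_of_dvd (Nat.pos_of_ne_zero i1) (AddSubgroup.index_dvd_of_le hle)
  set Q : AddSubgroup I := (nrm p t).range ⊔ P0 with hQd
  have hd2 : P0.relIndex Q = P0.relIndex (nrm p t).range := by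
    rw [hQd, AddSubgroup.relIndex_sup_right]
  have hQI : Q ≤ I0 := sup_le hN hP
  have hne : ¬ I0 ≤ Q := by
    intro hc
    have he : Q = I0 := le_antisymm hQI hc
    rw [he] at hd2
    have h3 : p * R.index ≤ R.index := by
      calc p * R.index ≤ P0.relIndex I0 := i3
        _ = P0.relIndex (nrm p t).range := hd2
        _ ≤ R.index := hd1
    have h4 : 0 < R.index := Nat.pos_of_ne_zero i1
    have h5 : 2 * R.index ≤ p * R.index := Nat.mul_le_mul_right _ hp.two_le
    omega
  obtain ⟨x, hx, hxQ⟩ := SetLike.not_le_iff_exists.1 hne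
  obtain ⟨c, hc⟩ := hinv x ((mI0 x).1 hx)
  obtain ⟨χ, hχ1, hχ2⟩ := h1 p hp C (Q.comap ι) (by
    intro c'
    rw [AddSubgroup.mem_comap, map_nsmul, ← rch_fix p t (ι c') (hfix c')]
    exact AddSubgroup.mem_sup_left ⟨ι c', rfl⟩) c (by
    rw [AddSubgroup.mem_comap, hc]
    exact hxQ)
  refine ⟨χ, ?_, ?_, ?_⟩
  · rintro rfl
    exact hχ2 rfl
  · intro c' y hy hcy
    apply hχ1
    rw [AddSubgroup.mem_comap, hcy]
    exact AddSubgroup.mem_sup_right (AddSubgroup.mem_map_of_mem d ((mV0 y).2 hy))
  · intro c' y hcy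
    apply hχ1
    rw [AddSubgroup.mem_comap, hcy]
    exact AddSubgroup.mem_sup_left ⟨y, rfl⟩

end Pool.Agent.FW
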