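import Pool.Agent.Lib.FW.SpecR1

/-!
# FW, part R1, module RCp: the capitulation kernel
-/

open scoped Pointwise NumberField nonZeroDivisors

noncomputable section

namespace Pool.Agent.FW

open Pool.Agent.MuZ NumberField IsDedekindDomain

private theorem RCp_tele {A : Type} [AddCommGroup A] (p : ℕ) (s : A →+ A) (x : A) :
    nrm p s (s x - x) = (s^[p]) x - x := by
  rw [map_sub, nrm_apply, nrm_apply, ← Finset.sum_sub_distrib]
  have h : ∀ i ∈ Finset.range p, (s^[i]) (s x) - (s^[i]) x = (s^[i + 1]) x - (s^[i]) x := by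
    intro i _
    rw [Function.iterate_succ_apply]
  rw [Finset.sum_congr rfl h, Finset.sum_range_sub (fun i => (s^[i]) x) p]
  rfl

theorem tRCp : S_RCp := by
  intro p V I _ _ s t d hB
  obtain ⟨X, hX⟩ : ∃ X : AddSubgroup V, X = (t - AddMonoidHom.id I).ker.comap d := ⟨_, rfl⟩
  have hXmem : ∀ x, x ∈ X ↔ t (d x) - d x = 0 := by
    intro x
    rw [hX, AddSubgroup.mem_comap, AddMonoidHom.mem_ker]
    rfl
  have hd : d.ker ≤ X := by
    intro x hx
    rw [hXmem, (AddMonoidHom.mem_ker).1 hx, map_zero, sub_zero]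
  have hs : (s - AddMonoidHom.id V).ker ≤ X := by
    intro x hx
    have h1 : s x - x = 0 := hx
    rw [hXmem, hB.cm, sub_eq_zero.1 h1, sub_self]
  have h1 : X.map d = (t - AddMonoidHom.id I).ker ⊓ d.range := by
    rw [hX, AddSubgroup.map_comap_eq, inf_comm]
  have h2 : X.map (s - AddMonoidHom.id V) = d.ker ⊓ (nrm p s).ker := by
    ext u
    rw [AddSubgroup.mem_map, AddSubgroup.mem_inf]
    constructor
    · rintro ⟨x, hx, rfl⟩
      rw [hXmem] at hx
      refine ⟨?_, ?_⟩
      · rw [AddMonoidHom.mem_ker]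
        show d (s x - x) = 0
        rw [map_sub, ← hB.cm, hx]
      · rw [AddMonoidHom.mem_ker]
        show nrm p s (s x - x) = 0
        rw [RCp_tele, hB.sp, sub_self]
    · rintro ⟨hu1, hu2⟩
      rw [AddMonoidHom.mem_ker] at hu1 hu2
      obtain ⟨y, hy⟩ := hB.h90 u hu2
      refine ⟨y, ?_, hy.symm⟩
      rw [hXmem, hB.cm, ← map_sub, ← hy, hu1]
  have h3 : ((s - AddMonoidHom.id V).ker.map d).relIndex (X.map d) =
      ((s - AddMonoidHom.id V).ker ⊔ d.ker).relIndex X := by
    rw [AddSubgroup.relIndex_map_map, sup_eq_left.2 hd]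
  have h4 : (d.ker.map (s - AddMonoidHom.id V)).relIndex (X.map (s - AddMonoidHom.id V)) =
      (d.ker ⊔ (s - AddMonoidHom.id V).ker).relIndex X := by
    rw [AddSubgroup.relIndex_map_map, sup_eq_left.2 hs]
  rw [← h1, ← h2, h3, h4, sup_comm]

end Pool.Agent.FW
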