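import Pool.Agent.Lib.FW.SpecR1

/-!
# FW, part R1, module RFac: characters of the group of fractional ideals
-/

open scoped Pointwise NumberField nonZeroDivisors

noncomputable section

namespace Pool.Agent.FW

open Pool.Agent.MuZ NumberField IsDedekindDomain

section Frac

variable {K : Type} [Field K] [NumberField K]

private theorem RFac_zsmul (n : ℤ) (z : Additive (FractionalIdeal (𝓞 K)⁰ K)ˣ) :
    toF (n • z) = (toF z) ^ n := by
  unfold toF
  rw [toMul_zsmul, Units.val_zpow_eq_zpow_val]

private theorem RFac_sum (T : Finset (HeightOneSpectrum (𝓞 K)))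
    (f : HeightOneSpectrum (𝓞 K) → Additive (FractionalIdeal (𝓞 K)⁰ K)ˣ) :
    toF (∑ v ∈ T, f v) = ∏ v ∈ T, toF (f v) := by
  classical
  induction T using Finset.induction_on with
  | empty => rfl
  | insert a s ha ih => rw [Finset.sum_insert ha, Finset.prod_insert ha, toF_add, ih]

private theorem RFac_key (p : ℕ) (χ : Additive (FractionalIdeal (𝓞 K)⁰ K)ˣ →+ ZMod p)
    (y : Additive (FractionalIdeal (𝓞 K)⁰ K)ˣ) :
    χ y = ∑ᶠ v : HeightOneSpectrum (𝓞 K), (FractionalIdeal.count K v (toF y) : ZMod p) *
      χ (prU v) := by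
  have h1 : {v : HeightOneSpectrum (𝓞 K) | ¬ FractionalIdeal.count K v (toF y) = 0}.Finite :=
    FractionalIdeal.finite_factors (toF y)
  have h2 : y = ∑ v ∈ h1.toFinset, FractionalIdeal.count K v (toF y) • prU v := by
    apply toF_inj
    rw [RFac_sum]
    simp only [RFac_zsmul, toF_prU]
    conv_lhs => rw [← FractionalIdeal.finprod_heightOneSpectrum_factorization' K (toF_ne_zero y)]
    refine finprod_eq_prod_of_mulSupport_subset _ ?_
    intro v hv
    rw [Set.Finite.coe_toFinset]
    intro hc
    apply hv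
    simp only [hc, zpow_zero]
  rw [finsum_eq_sum_of_support_subset (s := h1.toFinset)]
  · conv_lhs => rw [h2]
    rw [map_sum]
    refine Finset.sum_congr rfl fun v _ => ?_
    rw [map_zsmul, zsmul_eq_mul]
  · intro v hv
    rw [Set.Finite.coe_toFinset]
    intro hc
    apply hv
    simp only [hc, Int.cast_zero, zero_mul]

end Frac

theorem tRFac : S_RFac := by
  intro K _ _ p χ hχ
  refine ⟨fun x hx => ?_, fun h => ?_⟩
  · have h1 := RFac_key p χ (frD K (Additive.ofMul (Units.mk0 x hx)))
    rw [hχ, toF_frD] at h1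
    exact h1.symm
  · refine AddMonoidHom.ext fun y => ?_
    rw [RFac_key p χ y]
    simp only [h, mul_zero, finsum_zero]
    rfl

end Pool.Agent.FW
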