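import Pool.Agent.Lib.FW.SpecR1

/-!
# FW, part R1, module RFin: kernel and cokernel of an endomorphism of a finite group
-/

open scoped Pointwise NumberField nonZeroDivisors

noncomputable section

namespace Pool.Agent.FW

open Pool.Agent.MuZ NumberField IsDedekindDomain

theorem tRFin : S_RFin := by
  intro I _ φ P hP hφ
  have hP0 : P.index ≠ 0 := hP.index_ne_zero
  have hle : P ≤ P.comap φ := fun x hx => hφ x hx
  have h1 := AddSubgroup.relIndex_mul_index hle
  have h2 := AddSubgroup.relIndex_mul_index (le_sup_left : P ≤ P ⊔ φ.range)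
  have h3 : P.relIndex (P ⊔ φ.range) = P.relIndex φ.range := AddSubgroup.relIndex_sup_left _ _
  rw [AddSubgroup.index_comap] at h1
  rw [h3] at h2
  have h4 : P.relIndex φ.range ≠ 0 := by
    intro h
    rw [h, zero_mul] at h2
    exact hP0 h2.symm
  have h5 : (P ⊔ φ.range).index ≠ 0 := by
    intro h
    rw [h, mul_zero] at h2
    exact hP0 h2.symm
  refine ⟨?_, h5⟩
  have h6 : P.relIndex φ.range * P.relIndex (P.comap φ) =
      P.relIndex φ.range * (P ⊔ φ.range).index := by
    rw [h2, ← h1, mul_comm]
  exact Nat.eq_of_mul_eq_mul_left (Nat.pos_of_ne_zero h4) h6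

end Pool.Agent.FW
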