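import Pool.Agent.Lib.FW.SpecR1

/-!
# FW, part R1, module RHB: the axioms
-/

open scoped Pointwise NumberField nonZeroDivisors

noncomputable section

namespace Pool.Agent.FW

open Pool.Agent.MuZ NumberField IsDedekindDomain

section

variable {K L : Type} [Field K] [Field L] [Algebra K L]

private theorem RHB_one (x : Additive Lˣ) : frV (1 : Gal(L/K)) x = x := by
  apply Additive.toMul.injective
  ext
  rfl

private theorem RHB_mul (s t : Gal(L/K)) (x : Additive Lˣ) :
    frV (s * t) x = frV s (frV t x) := by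
  apply Additive.toMul.injective
  ext
  rfl

private theorem RHB_iter (s : Gal(L/K)) (n : ℕ) (x : Additive Lˣ) :
    (frV s)^[n] x = frV (s ^ n) x := by
  induction n with
  | zero => rw [Function.iterate_zero, id, pow_zero, RHB_one]
  | succ n ih => rw [Function.iterate_succ_apply', ih, ← RHB_mul, pow_succ']

end

section

variable {K L : Type} [Field K] [NumberField K] [Field L] [NumberField L] [Algebra K L]

private theorem RHB_iterI (s : Gal(L/K)) (n : ℕ) (y : Additive (FractionalIdeal (𝓞 L)⁰ L)ˣ) :
    (frI s)^[n] y = frI (s ^ n) y := by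
  induction n with
  | zero => rw [Function.iterate_zero, id, pow_zero, frI_one]
  | succ n ih => rw [Function.iterate_succ_apply', ih, ← frI_mul, pow_succ']

/-- the sum over the powers is the norm -/
private theorem RHB_norm [IsGalois K L] (s : Gal(L/K))
    (hs : ∀ g : Gal(L/K), g ∈ Subgroup.zpowers s) (x : Additive Lˣ)
    (hx : nrm (Module.finrank K L) (frV s) x = 0) :
    Algebra.norm K ((Additive.toMul x : Lˣ) : L) = 1 := by
  classical
  apply (algebraMap K L).injective
  rw [Algebra.norm_eq_prod_automorphisms, map_one]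
  have hcard : orderOf s = Module.finrank K L := by
    rw [orderOf_eq_card_of_forall_mem_zpowers hs, IsGalois.card_aut_eq_finrank]
  have h1 : ∏ i ∈ Finset.range (Module.finrank K L),
      (s ^ i) ((Additive.toMul x : Lˣ) : L) = 1 := by
    rw [nrm_apply] at hx
    have h2 := congrArg (fun y : Additive Lˣ => ((Additive.toMul y : Lˣ) : L)) hx
    simp only [toMul_sum, toMul_zero, Units.val_one, Units.coe_prod] at h2
    rw [← h2]
    refine Finset.prod_congr rfl fun i _ => ?_
    rw [RHB_iter, frV_coe]
  rw [← h1]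
  symm
  refine Finset.prod_bij (fun i _ => s ^ i) (fun _ _ => Finset.mem_univ _) ?_ ?_ fun _ _ => rfl
  · intro i hi j hj hij
    refine pow_injOn_Iio_orderOf ?_ ?_ hij
    · rw [hcard]; exact Finset.mem_range.1 hi
    · rw [hcard]; exact Finset.mem_range.1 hj
  · intro g _
    have := mem_zpowers_iff_mem_range_orderOf.1 (hs g)
    obtain ⟨i, hi, h⟩ := Finset.mem_image.1 this
    exact ⟨i, by rw [← hcard]; exact hi, h⟩

private theorem RHB_fin : (frD L).range.FiniteIndex := by
  have h1 : Finite ((FractionalIdeal (𝓞 L)⁰ L)ˣ ⧸ (toPrincipalIdeal (𝓞 L) L).range) :=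
    Finite.of_equiv _ (ClassGroup.equiv (R := 𝓞 L) L).toEquiv
  have h2 : (toPrincipalIdeal (𝓞 L) L).range.index ≠ 0 := by
    have h3 : (toPrincipalIdeal (𝓞 L) L).range.FiniteIndex :=
      Subgroup.finiteIndex_of_finite_quotient
    exact h3.index_ne_zero
  have h4 : (frD L).range = Subgroup.toAddSubgroup (toPrincipalIdeal (𝓞 L) L).range := by
    ext y
    constructor
    · rintro ⟨v, rfl⟩
      exact ⟨Additive.toMul v, rfl⟩
    · rintro ⟨v, hv⟩
      exact ⟨Additive.ofMul v, hv⟩
  refine ⟨?_⟩
  rw [h4, Subgroup.index_toAddSubgroup]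
  exact h2

end

theorem tRHB : S_RHB := by
  intro K L _ _ _ _ _ _ s hs
  have hcyc : IsCyclic Gal(L/K) := ⟨s, hs⟩
  have hcard : orderOf s = Module.finrank K L := by
    rw [orderOf_eq_card_of_forall_mem_zpowers hs, IsGalois.card_aut_eq_finrank]
  have hsn : s ^ Module.finrank K L = 1 := by rw [← hcard, pow_orderOf_eq_one]
  refine ⟨fun x => frI_frD s x, fun x => ?_, fun x => ?_, fun x hx => ?_, RHB_fin⟩
  · rw [RHB_iter, hsn, RHB_one]
  · rw [RHB_iterI, hsn, frI_one]
  · obtain ⟨y, hy⟩ := groupCohomology.exists_div_of_norm_eq_one hs (RHB_norm s hs x hx)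
    refine ⟨-Additive.ofMul y, ?_⟩
    apply Additive.toMul.injective
    rw [map_neg, neg_sub_neg, toMul_sub, toMul_ofMul]
    ext
    rw [Units.val_div_eq_div_val, frV_coe, toMul_ofMul]
    exact hy.symm

end Pool.Agent.FW
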