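import Pool.Agent.Lib.FW.SpecR1

/-!
# S_RHa: ranks of the kernel of the norm and of the invariants
-/

open scoped Pointwise NumberField nonZeroDivisors

noncomputable section

namespace Pool.Agent.FW

open Pool.Agent.MuZ NumberField IsDedekindDomain

private lemma RHa_sub {M : Type} [AddCommGroup M] (H : AddSubgroup M) :
    Module.finrank ℤ H = Module.finrank ℤ (AddSubgroup.toIntSubmodule H) := by
  let e : H ≃ₗ[ℤ] AddSubgroup.toIntSubmodule H :=
    { toFun := fun x => ⟨x.1, x.2⟩
      invFun := fun x => ⟨x.1, x.2⟩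
      left_inv := fun x => rfl
      right_inv := fun x => rfl
      map_add' := fun x y => rfl
      map_smul' := fun n x => rfl }
  exact e.finrank_eq

private lemma RHa_rn {M M' : Type} [AddCommGroup M] [AddCommGroup M'] [Module.Finite ℤ M]
    (f : M →+ M') : Module.finrank ℤ f.range + Module.finrank ℤ f.ker = Module.finrank ℤ M := by
  have h := Submodule.finrank_quotient_add_finrank (LinearMap.ker f.toIntLinearMap)
  rw [f.toIntLinearMap.quotKerEquivRange.finrank_eq] at h
  rw [RHa_sub, RHa_sub]
  exact h

/-- the norm is invariant -/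
private lemma RHa_inv {A : Type} [AddCommGroup A] (p : ℕ) (s : A →+ A)
    (hp : ∀ x : A, (s^[p]) x = x) (x : A) : s (nrm p s x) = nrm p s x := by
  rw [nrm_apply, map_sum]
  have h1 : ∑ i ∈ Finset.range p, s ((s^[i]) x) = ∑ i ∈ Finset.range p, (s^[i + 1]) x := by
    refine Finset.sum_congr rfl fun i _ => ?_
    rw [Function.iterate_succ_apply']
  rw [h1]
  have h2 := Finset.sum_range_succ (fun i => (s^[i]) x) p
  have h3 := Finset.sum_range_succ' (fun i => (s^[i]) x) p
  rw [h3, Function.iterate_zero, id_eq, hp x] at h2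
  exact add_right_cancel h2

/-- the norm of an invariant element -/
private lemma RHa_mul {A : Type} [AddCommGroup A] (p : ℕ) (s : A →+ A) (x : A) (hx : s x = x) :
    nrm p s x = p • x := by
  rw [nrm_apply]
  have h1 : ∀ i ∈ Finset.range p, (s^[i]) x = x := fun i _ => Function.iterate_fixed hx i
  rw [Finset.sum_congr rfl h1, Finset.sum_const, Finset.card_range]

theorem tRHa : S_RHa := by
  intro E _ _ p s hpp hp
  have h1 := RHa_rn (nrm p s)
  have hle : (nrm p s).range ≤ (s - AddMonoidHom.id E).ker := by
    rintro _ ⟨x, rfl⟩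
    rw [AddMonoidHom.mem_ker, AddMonoidHom.sub_apply, AddMonoidHom.id_apply,
      RHa_inv p s hp, sub_self]
  have h2 : Module.finrank ℤ (nrm p s).range ≤
      Module.finrank ℤ (s - AddMonoidHom.id E).ker := by
    rw [RHa_sub, RHa_sub]
    exact Submodule.finrank_mono hle
  -- the restriction of the norm to the invariants
  have hfin : Module.Finite ℤ (s - AddMonoidHom.id E).ker := by
    have h3 : Module.Finite ℤ (AddSubgroup.toIntSubmodule (s - AddMonoidHom.id E).ker) :=
      inferInstance
    exact h3
  let f : (s - AddMonoidHom.id E).ker →+ E :=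
    (nrm p s).comp (s - AddMonoidHom.id E).ker.subtype
  have h3 := RHa_rn f
  have h4 : Module.finrank ℤ f.ker = 0 := by
    apply Module.IsTorsion.finrank_eq_zero
    intro x
    refine ⟨⟨(p : ℤ), ?_⟩, ?_⟩
    · rw [mem_nonZeroDivisors_iff_ne_zero]
      exact_mod_cast hpp.ne_zero
    · apply Subtype.ext
      apply Subtype.ext
      change (p : ℤ) • ((x : (s - AddMonoidHom.id E).ker) : E) = 0
      have h5 : s ((x : (s - AddMonoidHom.id E).ker) : E) =
          ((x : (s - AddMonoidHom.id E).ker) : E) := by
        have h6 := (x : (s - AddMonoidHom.id E).ker).2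
        rw [AddMonoidHom.mem_ker, AddMonoidHom.sub_apply, AddMonoidHom.id_apply,
          sub_eq_zero] at h6
        exact h6
      have h7 : nrm p s ((x : (s - AddMonoidHom.id E).ker) : E) = 0 := x.2
      rw [RHa_mul p s _ h5] at h7
      rw [natCast_zsmul]
      exact h7
  have h5 : Module.finrank ℤ f.range ≤ Module.finrank ℤ (nrm p s).range := by
    rw [RHa_sub, RHa_sub]
    refine Submodule.finrank_mono ?_
    rintro _ ⟨x, rfl⟩
    exact ⟨x, rfl⟩
  omega

end Pool.Agent.FW
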