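import Pool.Agent.Lib.FW.SpecR1

/-!
# S_RHb: the index of `(s - 1) A` in the kernel `A` of the norm
-/

open scoped Pointwise NumberField nonZeroDivisors

noncomputable section

namespace Pool.Agent.FW

open Pool.Agent.MuZ NumberField IsDedekindDomain

/-- the norm of an invariant element -/
private lemma RHb_mul {A : Type} [AddCommGroup A] (p : ℕ) (s : A →+ A) (x : A) (hx : s x = x) :
    nrm p s x = p • x := by
  rw [nrm_apply]
  have h1 : ∀ i ∈ Finset.range p, (s^[i]) x = x := fun i _ => Function.iterate_fixed hx i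
  rw [Finset.sum_congr rfl h1, Finset.sum_const, Finset.card_range]

private lemma RHb_shift {A : Type} [AddCommGroup A] (p : ℕ) (s : A →+ A)
    (hp : ∀ x : A, (s^[p]) x = x) (x : A) : nrm p s (s x) = nrm p s x := by
  rw [nrm_apply, nrm_apply]
  have h1 : ∑ i ∈ Finset.range p, (s^[i]) (s x) = ∑ i ∈ Finset.range p, (s^[i + 1]) x := by
    refine Finset.sum_congr rfl fun i _ => ?_
    rw [Function.iterate_succ_apply]
  rw [h1]
  have h2 := Finset.sum_range_succ (fun i => (s^[i]) x) p
  have h3 := Finset.sum_range_succ' (fun i => (s^[i]) x) p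
  rw [h3, Function.iterate_zero, id_eq, hp x] at h2
  exact add_right_cancel h2

private lemma RHb_mem {A : Type} [AddCommGroup A] (s : A →+ A) (x : A) :
    x ∈ (s - AddMonoidHom.id A).ker ↔ s x = x := by
  rw [AddMonoidHom.mem_ker, AddMonoidHom.sub_apply, AddMonoidHom.id_apply, sub_eq_zero]

theorem tRHb (h1 : S_HLem) (h2 : S_RHa) : S_RHb := by
  intro E _ _ p s hpp hp hrk
  have hfin : Module.Finite ℤ (nrm p s).ker := by
    have h3 : Module.Finite ℤ (AddSubgroup.toIntSubmodule (nrm p s).ker) := inferInstance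
    exact h3
  let s' : (nrm p s).ker →+ (nrm p s).ker :=
    (s.comp (nrm p s).ker.subtype).codRestrict (nrm p s).ker (fun x => by
      rw [AddMonoidHom.mem_ker]
      change nrm p s (s (x : E)) = 0
      rw [RHb_shift p s hp]
      exact x.2)
  have hs' : ∀ x : (nrm p s).ker, ((s' x : (nrm p s).ker) : E) = s (x : E) := fun x => rfl
  have hit : ∀ (i : ℕ) (x : (nrm p s).ker), (((s'^[i]) x : (nrm p s).ker) : E) =
      (s^[i]) (x : E) := by
    intro i
    induction i with
    | zero => intro x; rfl
    | succ i ih =>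
      intro x
      rw [Function.iterate_succ_apply, Function.iterate_succ_apply, ih, hs']
  obtain ⟨_, _, hi⟩ := h1 (nrm p s).ker p s' hpp (by
    intro x
    apply Subtype.ext
    rw [AddSubgroup.val_finsetSum]
    simp only [hit]
    exact x.2)
  have hcard : Nat.card (s' - AddMonoidHom.id (nrm p s).ker).ker =
      Nat.card {x : E // s x = x ∧ p • x = 0} := by
    refine Nat.card_congr ?_
    refine
      { toFun := fun x => ⟨((x : (nrm p s).ker) : E), ?_, ?_⟩
        invFun := fun x => ⟨⟨(x : E), ?_⟩, ?_⟩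
        left_inv := fun x => rfl
        right_inv := fun x => rfl }
    · exact congrArg Subtype.val ((RHb_mem s' _).1 x.2)
    · have h3 : s ((x : (nrm p s).ker) : E) = ((x : (nrm p s).ker) : E) :=
        congrArg Subtype.val ((RHb_mem s' _).1 x.2)
      rw [← RHb_mul p s _ h3]
      exact (x : (nrm p s).ker).2
    · rw [AddMonoidHom.mem_ker, RHb_mul p s _ x.2.1]
      exact x.2.2
    · rw [RHb_mem]
      apply Subtype.ext
      exact x.2.1
  have hsub : ((nrm p s).ker.map (s - AddMonoidHom.id E)).addSubgroupOf (nrm p s).ker =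
      (s' - AddMonoidHom.id (nrm p s).ker).range := by
    ext x
    rw [AddSubgroup.mem_addSubgroupOf, AddSubgroup.mem_map, AddMonoidHom.mem_range]
    constructor
    · rintro ⟨y, hy, hxy⟩
      refine ⟨⟨y, hy⟩, ?_⟩
      apply Subtype.ext
      exact hxy
    · rintro ⟨y, rfl⟩
      exact ⟨y, y.2, rfl⟩
  have hr := h2 E p s hpp hp
  set r := Module.finrank ℤ (s - AddMonoidHom.id E).ker with hrdef
  have hA : Module.finrank ℤ (nrm p s).ker = (r + 1) * (p - 1) := by
    obtain ⟨q, rfl⟩ : ∃ q, p = q + 1 := ⟨p - 1, by have := hpp.pos; omega⟩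
    rw [Nat.add_sub_cancel]
    have h5 : (q + 1) * (r + 1) = (r + 1) * q + (r + 1) := by ring
    rw [h5] at hrk
    omega
  have hp1 : p - 1 ≠ 0 := by
    have := hpp.two_le
    omega
  rw [AddSubgroup.relIndex, hsub, ← hcard]
  rw [hA, pow_mul, ← mul_pow] at hi
  exact Nat.pow_left_injective hp1 hi

end Pool.Agent.FW
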