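import Pool.Agent.Lib.FW.SpecR1

/-!
# S_RHc: the index of the norms of the invariants
-/

open scoped Pointwise NumberField nonZeroDivisors

noncomputable section

namespace Pool.Agent.FW

open Pool.Agent.MuZ NumberField IsDedekindDomain

/-- the norm of an invariant element -/
private lemma RHc_mul {A : Type} [AddCommGroup A] (p : ℕ) (s : A →+ A) (x : A) (hx : s x = x) :
    nrm p s x = p • x := by
  rw [nrm_apply]
  have h1 : ∀ i ∈ Finset.range p, (s^[i]) x = x := fun i _ => Function.iterate_fixed hx i
  rw [Finset.sum_congr rfl h1, Finset.sum_const, Finset.card_range]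

private lemma RHc_mem {A : Type} [AddCommGroup A] (s : A →+ A) (x : A) :
    x ∈ (s - AddMonoidHom.id A).ker ↔ s x = x := by
  rw [AddMonoidHom.mem_ker, AddMonoidHom.sub_apply, AddMonoidHom.id_apply, sub_eq_zero]

theorem tRHc (h1 : S_HQn) : S_RHc := by
  intro E _ _ p s hpp
  have hfin : Module.Finite ℤ (s - AddMonoidHom.id E).ker := by
    have h3 : Module.Finite ℤ (AddSubgroup.toIntSubmodule (s - AddMonoidHom.id E).ker) :=
      inferInstance
    exact h3
  obtain ⟨_, hk, hi⟩ := h1 (s - AddMonoidHom.id E).ker p hpp.pos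
  have hcard : Nat.card (nsmulAddMonoidHom (α := (s - AddMonoidHom.id E).ker) p).ker =
      Nat.card {x : E // s x = x ∧ p • x = 0} := by
    refine Nat.card_congr ?_
    refine
      { toFun := fun x => ⟨((x : (s - AddMonoidHom.id E).ker) : E), ?_, ?_⟩
        invFun := fun x => ⟨⟨(x : E), (RHc_mem s _).2 x.2.1⟩, ?_⟩
        left_inv := fun x => rfl
        right_inv := fun x => rfl }
    · exact (RHc_mem s _).1 (x : (s - AddMonoidHom.id E).ker).2
    · have h2 := x.2
      rw [AddMonoidHom.mem_ker] at h2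
      exact congrArg Subtype.val h2
    · rw [AddMonoidHom.mem_ker]
      apply Subtype.ext
      exact x.2.2
  have hsub : ((s - AddMonoidHom.id E).ker.map (nrm p s)).addSubgroupOf
      (s - AddMonoidHom.id E).ker =
      (nsmulAddMonoidHom (α := (s - AddMonoidHom.id E).ker) p).range := by
    ext x
    rw [AddSubgroup.mem_addSubgroupOf, AddSubgroup.mem_map, AddMonoidHom.mem_range]
    constructor
    · rintro ⟨y, hy, hxy⟩
      refine ⟨⟨y, hy⟩, ?_⟩
      apply Subtype.ext
      rw [RHc_mul p s y ((RHc_mem s y).1 hy)] at hxy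
      exact hxy
    · rintro ⟨y, rfl⟩
      refine ⟨y, y.2, ?_⟩
      rw [RHc_mul p s _ ((RHc_mem s _).1 y.2)]
      rfl
  constructor
  · rw [AddSubgroup.relIndex, hsub, hi, hcard]
  · rw [← hcard]
    exact Nat.card_pos.ne'

end Pool.Agent.FW
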