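import Pool.Agent.Lib.FW.SpecR1

/-!
# S_RHq: the Herbrand quotient of the units
-/

open scoped Pointwise NumberField nonZeroDivisors

noncomputable section

namespace Pool.Agent.FW

open Pool.Agent.MuZ NumberField IsDedekindDomain

private lemma RHq_inv {A : Type} [AddCommGroup A] (p : ℕ) (s : A →+ A)
    (hp : ∀ x : A, (s^[p]) x = x) (x : A) : s (nrm p s x) = nrm p s x := by
  rw [nrm_apply, map_sum]
  have h1 : ∑ i ∈ Finset.range p, s ((s^[i]) x) = ∑ i ∈ Finset.range p, (s^[i + 1]) x := by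
    refine Finset.sum_congr rfl fun i _ => ?_
    rw [Function.iterate_succ_apply']
  rw [h1]
  have h2 := Finset.sum_range_succ (fun i => (s^[i]) x) p
  have h3 := Finset.sum_range_succ' (fun i => (s^[i]) x) p
  rw [h3, Function.iterate_zero, id_eq, hp x] at h2
  exact add_right_cancel h2

private lemma RHq_shift {A : Type} [AddCommGroup A] (p : ℕ) (s : A →+ A)
    (hp : ∀ x : A, (s^[p]) x = x) (x : A) : nrm p s (s x) = nrm p s x := by
  rw [nrm_apply, nrm_apply]
  have h1 : ∑ i ∈ Finset.range p, (s^[i]) (s x) = ∑ i ∈ Finset.range p, (s^[i + 1]) x := by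
    refine Finset.sum_congr rfl fun i _ => ?_
    rw [Function.iterate_succ_apply]
  rw [h1]
  have h2 := Finset.sum_range_succ (fun i => (s^[i]) x) p
  have h3 := Finset.sum_range_succ' (fun i => (s^[i]) x) p
  rw [h3, Function.iterate_zero, id_eq, hp x] at h2
  exact add_right_cancel h2

theorem tRHq (h1 : S_RHb) (h2 : S_RHc) : S_RHq := by
  intro E _ _ p s hpp hp hrk
  have hb := h1 E p s hpp hp hrk
  obtain ⟨hc, hk⟩ := h2 E p s hpp
  set φ : E →+ E := s - AddMonoidHom.id E with hφ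
  have hφx : ∀ x, φ x = s x - x := fun x => rfl
  -- inclusions
  have i1 : (nrm p s).ker.map φ ≤ φ.range := by
    rintro _ ⟨x, _, rfl⟩
    exact ⟨x, rfl⟩
  have i2 : φ.range ≤ (nrm p s).ker := by
    rintro _ ⟨x, rfl⟩
    rw [AddMonoidHom.mem_ker, hφx, map_sub, RHq_shift p s hp, sub_self]
  have i3 : φ.ker.map (nrm p s) ≤ (nrm p s).range := by
    rintro _ ⟨x, _, rfl⟩
    exact ⟨x, rfl⟩
  have i4 : (nrm p s).range ≤ φ.ker := by
    rintro _ ⟨x, rfl⟩
    rw [AddMonoidHom.mem_ker, hφx, RHq_inv p s hp, sub_self]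
  have m1 := AddSubgroup.relIndex_mul_relIndex _ _ _ i1 i2
  have m2 := AddSubgroup.relIndex_mul_relIndex _ _ _ i3 i4
  rw [hb] at m1
  rw [hc] at m2
  have n1 : ((nrm p s).ker.map φ).relIndex φ.range = ((nrm p s).ker ⊔ φ.ker).index := by
    rw [AddMonoidHom.range_eq_map, AddSubgroup.relIndex_map_map, top_sup_eq,
      AddSubgroup.relIndex_top_right]
  have n2 : (φ.ker.map (nrm p s)).relIndex (nrm p s).range =
      ((nrm p s).ker ⊔ φ.ker).index := by
    rw [AddMonoidHom.range_eq_map, AddSubgroup.relIndex_map_map, top_sup_eq,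
      AddSubgroup.relIndex_top_right, sup_comm]
  rw [n1] at m1
  rw [n2] at m2
  have hp0 : p ≠ 0 := hpp.ne_zero
  have hj : ((nrm p s).ker ⊔ φ.ker).index ≠ 0 := by
    intro h
    rw [h, zero_mul] at m2
    exact mul_ne_zero (pow_ne_zero _ hp0) hk m2.symm
  have hq : (nrm p s).range.relIndex φ.ker ≠ 0 := by
    intro h
    rw [h, mul_zero] at m2
    exact mul_ne_zero (pow_ne_zero _ hp0) hk m2.symm
  refine ⟨?_, hq⟩
  have h3 : ((nrm p s).ker ⊔ φ.ker).index * φ.range.relIndex (nrm p s).ker =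
      ((nrm p s).ker ⊔ φ.ker).index * (p * (nrm p s).range.relIndex φ.ker) := by
    rw [m1, mul_left_comm, m2, pow_succ]
    ring
  exact Nat.eq_of_mul_eq_mul_left (Nat.pos_of_ne_zero hj) h3

end Pool.Agent.FW
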