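import Pool.Agent.Lib.FW.SpecR1

/-!
# FW, part R1, module RIq: the inequality
-/

open scoped Pointwise NumberField nonZeroDivisors

noncomputable section

namespace Pool.Agent.FW

open Pool.Agent.MuZ NumberField IsDedekindDomain

theorem tRIq (h1 : S_RFin) (h2 : S_RCp) (h3 : S_RAm) : S_RIq := by
  intro p V I _ _ s t d hp hb hq
  obtain ⟨hq1, hq2⟩ := hq
  have hcm := hb.cm
  have hfin := hb.fin
  have e2 := h2 p V I s t d hb
  have e3 := h3 p V I s t d hb hq2
  have hinv : ∀ x ∈ d.range, (t - AddMonoidHom.id I) x ∈ d.range := by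
    rintro _ ⟨v, rfl⟩
    refine ⟨s v - v, ?_⟩
    rw [map_sub, ← hcm]
    rfl
  obtain ⟨e4, e5⟩ := h1 I (t - AddMonoidHom.id I) d.range hfin hinv
  have hP0 : (s - AddMonoidHom.id V).ker.map d ≤ (t - AddMonoidHom.id I).ker ⊓ d.range := by
    rintro _ ⟨v, hv, rfl⟩
    refine ⟨?_, ⟨v, rfl⟩⟩
    have hv' : s v - v = 0 := hv
    change t (d v) - d v = 0
    rw [hcm, ← map_sub, hv', map_zero]
  have hk : d.range.relIndex (t - AddMonoidHom.id I).ker ≠ 0 := by
    intro h
    have h6 : d.range.relIndex (t - AddMonoidHom.id I).ker ∣ d.range.index :=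
      AddSubgroup.relIndex_dvd_index_of_normal _ _
    rw [h, zero_dvd_iff] at h6
    exact hfin.index_ne_zero h6
  have hI0 : ((s - AddMonoidHom.id V).ker.map d).relIndex (t - AddMonoidHom.id I).ker =
      p * (d.ker.map (nrm p s)).relIndex (d.ker ⊓ (s - AddMonoidHom.id V).ker) *
        d.range.relIndex (t - AddMonoidHom.id I).ker := by
    rw [← AddSubgroup.relIndex_mul_relIndex _ _ _ hP0 inf_le_left, e2, hq1,
      AddSubgroup.inf_relIndex_left]
  have hY : d.range ⊔ (t - AddMonoidHom.id I).ker ≤ d.range.comap (t - AddMonoidHom.id I) := by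
    refine sup_le (fun x hx => hinv x hx) (fun x hx => ?_)
    change (t - AddMonoidHom.id I) x ∈ d.range
    have hx' : (t - AddMonoidHom.id I) x = 0 := hx
    rw [hx']
    exact zero_mem _
  have hidx : (d.range ⊔ (t - AddMonoidHom.id I).range).index =
      d.range.relIndex (t - AddMonoidHom.id I).ker *
        (d.range ⊔ (t - AddMonoidHom.id I).ker).relIndex
          (d.range.comap (t - AddMonoidHom.id I)) := by
    rw [← e4, ← AddSubgroup.relIndex_mul_relIndex _ _ _ le_sup_left hY,
      AddSubgroup.relIndex_sup_left]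
  refine ⟨e5, ?_, ?_⟩
  · rw [hI0]
    exact mul_ne_zero (mul_ne_zero hp.ne_zero hq2) hk
  · rw [hI0, hidx, mul_assoc, mul_comm ((d.ker.map (nrm p s)).relIndex _)]
    exact Nat.mul_le_mul_left _ (Nat.mul_le_mul_left _ e3)

end Pool.Agent.FW
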