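import Pool.Agent.Lib.FW.SpecR1

/-!
# FW, part R1, module RSp2
-/

open scoped Pointwise NumberField nonZeroDivisors

noncomputable section

namespace Pool.Agent.FW

open Pool.Agent.MuZ NumberField IsDedekindDomain

private theorem RSp2_iter {K L : Type} [Field K] [NumberField K] [Field L] [NumberField L]
    [Algebra K L] (s : Gal(L/K)) (y : Additive (FractionalIdeal (𝓞 L)⁰ L)ˣ) (i : ℕ) :
    (frI s)^[i] y = frI (s ^ i) y := by
  induction i with
  | zero => rw [pow_zero, frI_one, Function.iterate_zero_apply]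
  | succ i ih => rw [Function.iterate_succ_apply', ih, pow_succ', frI_mul]

private theorem RSp2_sum {L : Type} [Field L] [NumberField L]
    (f : ℕ → Additive (FractionalIdeal (𝓞 L)⁰ L)ˣ) (g : ℕ → Ideal (𝓞 L))
    (h : ∀ i, toF (f i) = (g i : FractionalIdeal (𝓞 L)⁰ L)) (n : ℕ) :
    toF (∑ i ∈ Finset.range n, f i) =
      ((∏ i ∈ Finset.range n, g i : Ideal (𝓞 L)) : FractionalIdeal (𝓞 L)⁰ L) := by
  induction n with
  | zero =>
    rw [Finset.sum_range_zero, Finset.prod_range_zero, Ideal.one_eq_top,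
      FractionalIdeal.coeIdeal_top]
    rfl
  | succ n ih =>
    rw [Finset.sum_range_succ, Finset.prod_range_succ, toF_add, ih, h,
      FractionalIdeal.coeIdeal_mul]

theorem tRSp2 : S_RSp2 := by
  intro K L _ _ _ _ _ n s v w hw h
  refine ⟨Additive.ofMul (Units.mk0 (w : FractionalIdeal (𝓞 L)⁰ L)
    (FractionalIdeal.coeIdeal_ne_zero.2 hw)), ?_⟩
  apply toF_inj
  rw [toF_frE_coe (prU v) v.asIdeal (toF_prU v), h, nrm_apply]
  simp only [RSp2_iter]
  exact (RSp2_sum _ _ (fun i => toF_frI_coe (s ^ i) _ w rfl) n).symm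

end Pool.Agent.FW
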