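import Pool.Agent.Lib.FW.SpecR1

/-!
# FW, part R1: a prime with a prime of degree one above it is the product of the conjugates
-/

open scoped Pointwise NumberField nonZeroDivisors

noncomputable section

namespace Pool.Agent.FW

open Pool.Agent.MuZ NumberField IsDedekindDomain

section

variable {K L : Type} [Field K] [NumberField K] [Field L] [NumberField L] [Algebra K L]

private theorem rs_mul (g h : Gal(L/K)) (x : 𝓞 L) : roi (g * h) x = roi g (roi h x) :=
  RingOfIntegers.ext rfl

private theorem rs_one (x : 𝓞 L) : roi (1 : Gal(L/K)) x = x := RingOfIntegers.ext rfl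

private theorem rs_alg (g : Gal(L/K)) (c : 𝓞 K) :
    roi g (algebraMap (𝓞 K) (𝓞 L) c) = algebraMap (𝓞 K) (𝓞 L) c :=
  RingOfIntegers.ext (g.commutes (c : K))

/-- The automorphism of the ring of integers. -/
private def rs_E (g : Gal(L/K)) : 𝓞 L ≃+* 𝓞 L where
  toFun := roi g
  invFun := roi g⁻¹
  left_inv x := by rw [← rs_mul, inv_mul_cancel, rs_one]
  right_inv x := by rw [← rs_mul, mul_inv_cancel, rs_one]
  map_mul' := map_mul (roi g)
  map_add' := map_add (roi g)

private theorem rs_E_coe (g : Gal(L/K)) : ((rs_E g : 𝓞 L ≃+* 𝓞 L) : 𝓞 L →+* 𝓞 L) = roi g := rfl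

private theorem rs_map_mul (g h : Gal(L/K)) (w : Ideal (𝓞 L)) :
    w.map (roi (g * h)) = (w.map (roi h)).map (roi g) := by
  rw [Ideal.map_map]
  congr 1

private theorem rs_map_one (w : Ideal (𝓞 L)) : w.map (roi (1 : Gal(L/K))) = w := by
  have h : roi (1 : Gal(L/K)) = RingHom.id (𝓞 L) := RingHom.ext fun x => rs_one x
  rw [h, Ideal.map_id]

private theorem rs_max (g : Gal(L/K)) (w : Ideal (𝓞 L)) (hw : w.IsMaximal) :
    (w.map (roi g)).IsMaximal := by
  rw [← rs_E_coe]
  exact Ideal.map_isMaximal_of_equiv (rs_E g)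

private theorem rs_norm (g : Gal(L/K)) (w : Ideal (𝓞 L)) :
    Ideal.absNorm (w.map (roi g)) = Ideal.absNorm w := by
  rw [Ideal.absNorm_apply, Ideal.absNorm_apply, Submodule.cardQuot_apply, Submodule.cardQuot_apply]
  exact (Nat.card_congr (Ideal.quotientEquiv w (w.map (roi g)) (rs_E g) rfl).toEquiv).symm

end

private theorem rs_surj {A B : Type} [CommRing A] [Finite A] [Nontrivial A] [Field B] [Finite B]
    (f : A →+* B) (hf : Function.Injective f) (h : ∀ x : B, x ^ Nat.card A = x) :
    Function.Surjective f := by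
  classical
  have := Fintype.ofFinite B
  have hq : 1 < Nat.card A := Finite.one_lt_card
  have h1 : (Finset.univ : Finset B).val ≤
      (Polynomial.X ^ Nat.card A - Polynomial.X : Polynomial B).roots := by
    rw [Multiset.le_iff_subset Finset.univ.nodup]
    intro x _
    rw [Polynomial.mem_roots (FiniteField.X_pow_card_sub_X_ne_zero B hq), Polynomial.IsRoot.def,
      Polynomial.eval_sub, Polynomial.eval_pow, Polynomial.eval_X, h x, sub_self]
  have h2 := Multiset.card_le_card h1
  have h3 := Polynomial.card_roots' (Polynomial.X ^ Nat.card A - Polynomial.X : Polynomial B)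
  rw [FiniteField.X_pow_card_sub_X_natDegree_eq B hq] at h3
  refine (hf.bijective_of_nat_card_le ?_).2
  rw [Nat.card_eq_fintype_card (α := B)]
  exact h2.trans h3

theorem tRSpl : S_RSpl := by
  intro K L _ _ _ _ _ _ s hs hT v w hw hwb hv hx
  have hvb : v ≠ ⊥ := by
    rintro rfl
    exact hwb (Ideal.eq_bot_of_comap_eq_bot hv)
  have hvp : v.IsPrime := hv ▸ hw.comap _
  have hwm : w.IsMaximal := hw.isMaximal hwb
  have : Finite (𝓞 K ⧸ v) := v.finiteQuotientOfFreeOfNeBot hvb
  have : Finite (𝓞 L ⧸ w) := w.finiteQuotientOfFreeOfNeBot hwb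
  have : Nontrivial (𝓞 K ⧸ v) := Ideal.Quotient.nontrivial_iff.2 hvp.ne_top
  let : Field (𝓞 L ⧸ w) := Ideal.Quotient.field w
  let f : 𝓞 K ⧸ v →+* 𝓞 L ⧸ w := Ideal.quotientMap w (algebraMap (𝓞 K) (𝓞 L)) hv.ge
  have hfi : Function.Injective f := Ideal.quotientMap_injective' hv.le
  have hfs : Function.Surjective f := by
    refine rs_surj f hfi fun x => ?_
    obtain ⟨x, rfl⟩ := Ideal.Quotient.mk_surjective x
    rw [← map_pow]
    exact (Ideal.Quotient.mk_eq_mk_iff_sub_mem _ _).2 (hx x)
  -- elements modulo `w`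
  have hc : ∀ x : 𝓞 L, ∃ c : 𝓞 K, x - algebraMap (𝓞 K) (𝓞 L) c ∈ w := by
    intro x
    obtain ⟨c, hc⟩ := hfs (Ideal.Quotient.mk w x)
    obtain ⟨c, rfl⟩ := Ideal.Quotient.mk_surjective c
    refine ⟨c, (Ideal.Quotient.mk_eq_mk_iff_sub_mem _ _).1 ?_⟩
    rw [← hc]
    rfl
  have hcard : Ideal.absNorm w = Ideal.absNorm v := by
    rw [Ideal.absNorm_apply, Ideal.absNorm_apply, Submodule.cardQuot_apply,
      Submodule.cardQuot_apply]
    exact (Nat.card_congr (Equiv.ofBijective f ⟨hfi, hfs⟩)).symm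
  have hfix : ∀ g : Gal(L/K), w.map (roi g) = w → g = 1 := by
    intro g hg
    refine hT w hw hwb g fun x => ?_
    obtain ⟨c, hc⟩ := hc x
    have h1 := Ideal.mem_map_of_mem (roi g) hc
    rw [hg, map_sub, rs_alg] at h1
    have h2 := w.sub_mem h1 hc
    rw [sub_sub_sub_cancel_right] at h2
    exact h2
  have hord : orderOf s = Module.finrank K L := by
    rw [orderOf_eq_card_of_forall_mem_zpowers hs, IsGalois.card_aut_eq_finrank]
  have hinj : ∀ i < Module.finrank K L, ∀ j < Module.finrank K L,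
      w.map (roi (s ^ i)) = w.map (roi (s ^ j)) → i = j := by
    intro i hi j hj h
    have h1 := congrArg (Ideal.map (roi (s ^ i)⁻¹)) h
    rw [← rs_map_mul, ← rs_map_mul, inv_mul_cancel, rs_map_one] at h1
    have h2 := hfix _ h1.symm
    have h3 : s ^ i = s ^ j := inv_mul_eq_one.1 h2
    rw [← hord] at hi hj
    exact pow_injOn_Iio_orderOf hi hj h3
  have hdvd : ∏ i ∈ Finset.range (Module.finrank K L), w.map (roi (s ^ i)) ∣
      v.map (algebraMap (𝓞 K) (𝓞 L)) := by
    apply Finset.prod_dvd_of_coprime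
    · intro i hi j hj hij
      change IsCoprime (w.map (roi (s ^ i))) (w.map (roi (s ^ j)))
      have hi' := Finset.mem_range.1 (Finset.mem_coe.1 hi)
      have hj' := Finset.mem_range.1 (Finset.mem_coe.1 hj)
      have := rs_max (s ^ i) w hwm
      have := rs_max (s ^ j) w hwm
      exact Ideal.isCoprime_of_isMaximal fun h => hij (hinj i hi' j hj' h)
    · intro i _
      rw [Ideal.dvd_iff_le, Ideal.map_le_iff_le_comap]
      intro a ha
      rw [← hv, Ideal.mem_comap] at ha
      rw [Ideal.mem_comap, ← rs_alg (s ^ i) a]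
      exact Ideal.mem_map_of_mem _ ha
  obtain ⟨J, hJ⟩ := hdvd
  have hn := congrArg Ideal.absNorm hJ
  have hrank : Module.finrank (𝓞 K) (𝓞 L) = Module.finrank K L :=
    (IsFractionRing.finrank_eq (𝓞 K) K (𝓞 L) L).symm
  rw [Ideal.absNorm_algebraMap, hrank, map_mul, map_prod,
    Finset.prod_congr rfl fun i _ => rs_norm (s ^ i) w, Finset.prod_const, Finset.card_range,
    hcard] at hn
  have h3 : Ideal.absNorm J = 1 := by
    have h4 : 0 < Ideal.absNorm v ^ Module.finrank K L := by
      refine pow_pos (Nat.pos_of_ne_zero fun h => hvb ?_) _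
      exact Ideal.absNorm_eq_zero_iff.1 h
    exact Nat.eq_of_mul_eq_mul_left h4 (by rw [← hn, mul_one])
  rw [Ideal.absNorm_eq_one_iff] at h3
  rw [hJ, h3, ← Ideal.one_eq_top, mul_one]

end Pool.Agent.FW
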