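import Pool.Agent.Lib.FW.SpecR1

/-!
# S_RTr: transport along an injective homomorphism
-/

open scoped Pointwise NumberField nonZeroDivisors

noncomputable section

namespace Pool.Agent.FW

open Pool.Agent.MuZ NumberField IsDedekindDomain

/-- two commuting endomorphisms: range and kernel -/
private lemma RTr_gen {E V : Type} [AddCommGroup E] [AddCommGroup V] (j : E →+ V) (a' : E →+ E)
    (a : V →+ V) (h : ∀ x, j (a' x) = a (j x)) (hj : Function.Injective j) :
    j.range.map a = a'.range.map j ∧ j.range ⊓ a.ker = a'.ker.map j := by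
  constructor
  · ext x
    simp only [AddSubgroup.mem_map, AddMonoidHom.mem_range]
    constructor
    · rintro ⟨_, ⟨y, rfl⟩, rfl⟩
      exact ⟨a' y, ⟨y, rfl⟩, h y⟩
    · rintro ⟨_, ⟨y, rfl⟩, rfl⟩
      exact ⟨j y, ⟨y, rfl⟩, (h y).symm⟩
  · ext x
    simp only [AddSubgroup.mem_map, AddSubgroup.mem_inf, AddMonoidHom.mem_range,
      AddMonoidHom.mem_ker]
    constructor
    · rintro ⟨⟨y, rfl⟩, hy⟩
      refine ⟨y, ?_, rfl⟩
      apply hj
      rw [h, hy, map_zero]
    · rintro ⟨y, hy, rfl⟩
      refine ⟨⟨y, rfl⟩, ?_⟩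
      rw [← h, hy, map_zero]

theorem tRTr : S_RTr := by
  intro E V _ _ p j s' s hj h
  have h1 : ∀ x, j ((s' - AddMonoidHom.id E) x) = (s - AddMonoidHom.id V) (j x) := by
    intro x
    rw [AddMonoidHom.sub_apply, AddMonoidHom.sub_apply, AddMonoidHom.id_apply,
      AddMonoidHom.id_apply, map_sub, h]
  have hit : ∀ (i : ℕ) (x : E), j ((s'^[i]) x) = (s^[i]) (j x) := by
    intro i
    induction i with
    | zero => intro x; rfl
    | succ i ih =>
      intro x
      rw [Function.iterate_succ_apply, Function.iterate_succ_apply, ih, h]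
  have h2 : ∀ x, j (nrm p s' x) = nrm p s (j x) := by
    intro x
    rw [nrm_apply, nrm_apply, map_sum]
    exact Finset.sum_congr rfl fun i _ => hit i x
  obtain ⟨a1, a2⟩ := RTr_gen j _ _ h1 hj
  obtain ⟨b1, b2⟩ := RTr_gen j _ _ h2 hj
  constructor
  · rw [a1, b2, AddSubgroup.relIndex_map_map_of_injective _ _ hj]
  · rw [b1, a2, AddSubgroup.relIndex_map_map_of_injective _ _ hj]

end Pool.Agent.FW
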