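import Pool.Agent.Lib.FW.SpecR1

/-!
# Part R1: the Herbrand quotient of the units
-/

open scoped Pointwise NumberField nonZeroDivisors

noncomputable section

namespace Pool.Agent.FW

open Pool.Agent.MuZ NumberField IsDedekindDomain

section

variable {K L : Type} [Field K] [NumberField K] [Field L] [NumberField L] [Algebra K L]

private theorem run_one (x : Additive (𝓞 L)ˣ) : unMap (1 : Gal(L/K)) x = x := by
  apply Additive.toMul.injective
  ext
  rfl

private theorem run_mul (s t : Gal(L/K)) (x : Additive (𝓞 L)ˣ) :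
    unMap (s * t) x = unMap s (unMap t x) := by
  apply Additive.toMul.injective
  ext
  rfl

private theorem run_iter (s : Gal(L/K)) (n : ℕ) (x : Additive (𝓞 L)ˣ) :
    (unMap s)^[n] x = unMap (s ^ n) x := by
  induction n with
  | zero => rw [Function.iterate_zero, id, pow_zero, run_one]
  | succ n ih => rw [Function.iterate_succ_apply', ih, ← run_mul, pow_succ']

/-- The inclusion of the units. -/
private def runJ (L : Type) [Field L] [NumberField L] : Additive (𝓞 L)ˣ →+ Additive Lˣ :=
  MonoidHom.toAdditive (Units.map (algebraMap (𝓞 L) L).toMonoidHom)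

private theorem runJ_coe (x : Additive (𝓞 L)ˣ) :
    ((Additive.toMul (runJ L x) : Lˣ) : L) = algebraMap (𝓞 L) L ((x.toMul : (𝓞 L)ˣ) : 𝓞 L) := rfl

private theorem runJ_inj : Function.Injective (runJ L) := by
  intro x y h
  apply Additive.toMul.injective
  apply Units.ext
  apply FaithfulSMul.algebraMap_injective (𝓞 L) L
  rw [← runJ_coe, ← runJ_coe, h]

private theorem runJ_un (s : Gal(L/K)) (x : Additive (𝓞 L)ˣ) :
    runJ L (unMap s x) = frV s (runJ L x) := by
  apply Additive.toMul.injective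
  ext
  rfl

private theorem run_mem {x : Additive Lˣ} (hx : frD L x = 0) :
    ∃ a : 𝓞 L, algebraMap (𝓞 L) L a = ((Additive.toMul x : Lˣ) : L) := by
  have h1 : toF (frD L x) = 1 := by
    rw [hx]
    rfl
  rw [toF_frD] at h1
  have h2 := FractionalIdeal.mem_spanSingleton_self (𝓞 L)⁰ ((Additive.toMul x : Lˣ) : L)
  rw [h1, FractionalIdeal.mem_one_iff] at h2
  exact h2

private theorem runJ_range : (runJ L).range = (frD L).ker := by
  ext x
  rw [AddMonoidHom.mem_range, AddMonoidHom.mem_ker]
  constructor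
  · rintro ⟨u, rfl⟩
    apply toF_inj
    rw [toF_frD, runJ_coe]
    have h0 : toF (0 : Additive (FractionalIdeal (𝓞 L)⁰ L)ˣ) = 1 := rfl
    rw [h0, ← FractionalIdeal.coeIdeal_span_singleton, Ideal.span_singleton_eq_top.2 u.toMul.isUnit]
    exact FractionalIdeal.coeIdeal_top (𝓞 L)⁰
  · intro hx
    obtain ⟨a, ha⟩ := run_mem hx
    obtain ⟨b, hb⟩ := run_mem (x := -x) (by rw [map_neg, hx, neg_zero])
    have hab : a * b = 1 := by
      apply FaithfulSMul.algebraMap_injective (𝓞 L) L
      rw [map_mul, ha, hb, map_one, toMul_neg, ← Units.val_mul, mul_inv_cancel, Units.val_one]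
    refine ⟨Additive.ofMul ⟨a, b, hab, by rw [mul_comm, hab]⟩, ?_⟩
    apply Additive.toMul.injective
    apply Units.ext
    rw [runJ_coe]
    exact ha

end

theorem tRUn (h1 : S_RHq) (h2 : S_RTr) (h3 : S_HPl) (h4 : S_HFx) : S_RUn := by
  intro K L _ _ _ _ _ _ s hs hp h2'
  have hsp : s ^ Module.finrank K L = 1 := by
    rw [← IsGalois.card_aut_eq_finrank]
    exact pow_card_eq_one'
  have hit : ∀ x : Additive (𝓞 L)ˣ, ((unMap s)^[Module.finrank K L]) x = x := by
    intro x
    rw [run_iter, hsp, run_one]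
  have hodd : Odd (Module.finrank K L) := hp.odd_of_ne_two h2'
  have hrk : Module.finrank ℤ (Additive (𝓞 L)ˣ) + 1 = Module.finrank K L *
      (Module.finrank ℤ (unMap s - AddMonoidHom.id (Additive (𝓞 L)ˣ)).ker + 1) := by
    rw [h4 K L s hs]
    exact h3 K L hodd
  obtain ⟨a1, a2⟩ := h2 (Additive (𝓞 L)ˣ) (Additive Lˣ) (Module.finrank K L) (runJ L) (unMap s)
    (frV s) runJ_inj (runJ_un s)
  obtain ⟨b1, b2⟩ := h1 (Additive (𝓞 L)ˣ) (Module.finrank K L) (unMap s) hp hit hrk
  unfold Hbq
  rw [runJ_range] at a1 a2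
  rw [a1, a2]
  exact ⟨b1, b2⟩

end Pool.Agent.FW
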