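import Pool.Agent.Lib.FW.R1.RLin
import Pool.Agent.Lib.FW.R1.RHa
import Pool.Agent.Lib.FW.R1.RHb
import Pool.Agent.Lib.FW.R1.RHc
import Pool.Agent.Lib.FW.R1.RHq
import Pool.Agent.Lib.FW.R1.RTr
import Pool.Agent.Lib.FW.R1.RFin
import Pool.Agent.Lib.FW.R1.RCp
import Pool.Agent.Lib.FW.R1.RAm
import Pool.Agent.Lib.FW.R1.RIq
import Pool.Agent.Lib.FW.R1.RCh
import Pool.Agent.Lib.FW.R1.RHB
import Pool.Agent.Lib.FW.R1.RUn
import Pool.Agent.Lib.FW.R1.RInv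
import Pool.Agent.Lib.FW.R1.RSpl
import Pool.Agent.Lib.FW.R1.RSp2
import Pool.Agent.Lib.FW.R1.RFac
import Pool.Agent.Lib.FW.R1.RAbs
import Pool.Agent.Lib.FW.R1.RFld
import Pool.Agent.Lib.FW.R1.RExt
import Pool.Agent.Lib.FW.R1.R1A
import Pool.Agent.Lib.FW.H.HCyc
import Pool.Agent.Lib.FW.H.HQm
import Pool.Agent.Lib.FW.H.HQn
import Pool.Agent.Lib.FW.H.HLem
import Pool.Agent.Lib.FW.H.HPl
import Pool.Agent.Lib.FW.H.HFx
import Pool.Agent.Lib.FW.H.HInv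
import Pool.Agent.Lib.FW.G.Ine

/-!
# FW, stage 2, part R1: the interface S_R1
-/

noncomputable section

namespace Pool.Agent.FW

/-- Part R1: the norm index is at least `p`. -/
theorem tR1 : S_R1 := by
  have hLem : S_HLem := tHLem tHCyc tHQm tHQn
  have hHq : S_RHq := tRHq (tRHb hLem tRHa) (tRHc tHQn)
  have hCh : S_RCh := tRCh tRLin (tRIq tRFin tRCp tRAm)
  have hUn : S_RUn := tRUn hHq tRTr tHPl tHFx
  exact tR1A (tRAbs hCh tRHB hUn tHInv tRInv tRSpl tRSp2 tRFac) tRFld tIne tRExt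

end Pool.Agent.FW
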