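import Pool.Agent.Lib.FW.SpecR1

/-!
# FW, part R1, module RInv: invariant fractional ideals are extended
-/

open scoped Pointwise NumberField nonZeroDivisors

noncomputable section

namespace Pool.Agent.FW

open Pool.Agent.MuZ NumberField IsDedekindDomain

/-- The stabiliser of a fractional ideal. -/
private def RInv_H {K L : Type} [Field K] [NumberField K] [Field L] [NumberField L] [Algebra K L]
    (y : Additive (FractionalIdeal (𝓞 L)⁰ L)ˣ) : Subgroup Gal(L/K) where
  carrier := {g | frI g y = y}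
  mul_mem' := by
    intro a b ha hb
    show frI (a * b) y = y
    rw [frI_mul, show frI b y = y from hb]
    exact ha
  one_mem' := frI_one y
  inv_mem' := by
    intro a ha
    have ha' : frI a y = y := ha
    show frI a⁻¹ y = y
    have h := frI_mul a⁻¹ a y
    rw [ha', inv_mul_cancel, frI_one] at h
    exact h.symm

private theorem RInv_all {K L : Type} [Field K] [NumberField K] [Field L] [NumberField L]
    [Algebra K L] (s : Gal(L/K)) (hs : ∀ g : Gal(L/K), g ∈ Subgroup.zpowers s)
    (y : Additive (FractionalIdeal (𝓞 L)⁰ L)ˣ) (hy : frI s y = y) (g : Gal(L/K)) :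
    frI g y = y := by
  have h : Subgroup.zpowers s ≤ RInv_H (K := K) y := by
    rw [Subgroup.zpowers_le]
    exact hy
  exact h (hs g)

/-- A positive natural number makes a fractional ideal integral. -/
private theorem RInv_int {L : Type} [Field L] [NumberField L]
    (y : FractionalIdeal (𝓞 L)⁰ L) :
    ∃ (n : ℕ) (I : Ideal (𝓞 L)), n ≠ 0 ∧
      FractionalIdeal.spanSingleton (𝓞 L)⁰ (n : L) * y = (I : FractionalIdeal (𝓞 L)⁰ L) := by
  obtain ⟨a, J, ha, hJ⟩ := FractionalIdeal.exists_eq_spanSingleton_mul y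
  have h1 : ((Ideal.absNorm (Ideal.span {a}) : ℕ) : 𝓞 L) ∈ Ideal.span {a} := Ideal.absNorm_mem _
  obtain ⟨b, hb⟩ := Ideal.mem_span_singleton'.1 h1
  have h2 : Ideal.absNorm (Ideal.span {a}) ≠ 0 := by
    rw [Ne, Ideal.absNorm_eq_zero_iff, Ideal.span_singleton_eq_bot]
    exact ha
  refine ⟨Ideal.absNorm (Ideal.span {a}), Ideal.span {b} * J, h2, ?_⟩
  have h3 : ((Ideal.absNorm (Ideal.span {a}) : ℕ) : L) = (b : L) * (a : L) := by
    have h4 := congrArg (fun x : 𝓞 L => (x : L)) hb
    simp only [map_mul, map_natCast] at h4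
    exact h4.symm
  have h5 : (a : L) ≠ 0 := RingOfIntegers.coe_ne_zero_iff.2 ha
  rw [hJ, ← mul_assoc, FractionalIdeal.spanSingleton_mul_spanSingleton, h3,
    FractionalIdeal.coeIdeal_mul, FractionalIdeal.coeIdeal_span_singleton]
  congr 2
  exact mul_inv_cancel_right₀ h5 _

theorem tRInv : S_RInv := by
  intro K L _ _ _ _ _ _ s hs hI y hy
  have hall := RInv_all s hs y hy
  obtain ⟨n, I, hn, hnI⟩ := RInv_int (toF y)
  have hnL : (n : L) ≠ 0 := Nat.cast_ne_zero.2 hn
  have hnK : (n : K) ≠ 0 := Nat.cast_ne_zero.2 hn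
  let u : Additive Lˣ := Additive.ofMul (Units.mk0 (n : L) hnL)
  let k : Additive Kˣ := Additive.ofMul (Units.mk0 (n : K) hnK)
  have hz : toF (frD L u + y) = (I : FractionalIdeal (𝓞 L)⁰ L) := by
    rw [toF_add, toF_frD]
    exact hnI
  have hI0 : I ≠ ⊥ := by
    rintro rfl
    apply toF_ne_zero (frD L u + y)
    rw [hz, FractionalIdeal.coeIdeal_bot]
  have hu : ∀ g : Gal(L/K), frV g u = u := by
    intro g
    apply Additive.toMul.injective
    apply Units.ext
    rw [frV_coe]
    exact map_natCast g n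
  have hinv : ∀ g : Gal(L/K), I.map (roi g) = I := by
    intro g
    have h1 := toF_frI_coe g (frD L u + y) I hz
    rw [map_add, frI_frD, hu, hall, hz] at h1
    exact FractionalIdeal.coeIdeal_injective h1.symm
  obtain ⟨J, hJ⟩ := hI I hI0 hinv
  have hJ0 : J ≠ ⊥ := by
    rintro rfl
    rw [Ideal.map_bot] at hJ
    exact hI0 hJ.symm
  let c' : Additive (FractionalIdeal (𝓞 K)⁰ K)ˣ :=
    Additive.ofMul (Units.mk0 (J : FractionalIdeal (𝓞 K)⁰ K)
      (FractionalIdeal.coeIdeal_ne_zero.2 hJ0))
  have hc' : frE K L c' = frD L u + y := by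
    apply toF_inj
    rw [toF_frE_coe c' J rfl, hJ, hz]
  have hk : frE K L (frD K k) = frD L u := by
    rw [frE_frD]
    congr 1
    apply Additive.toMul.injective
    apply Units.ext
    exact map_natCast (algebraMap K L) n
  exact ⟨c' - frD K k, by rw [map_sub, hc', hk, add_sub_cancel_left]⟩

end Pool.Agent.FW
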