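import Pool.Agent.Lib.FW.SpecR1

/-!
# FW, part R1, module RLin: characters of an elementary quotient
-/

open scoped Pointwise NumberField nonZeroDivisors

noncomputable section

namespace Pool.Agent.FW

open Pool.Agent.MuZ NumberField IsDedekindDomain

private theorem RLin_dual (k D : Type) [Field k] [AddCommGroup D] [Module k D] (x : D)
    (hx : x ≠ 0) : ∃ f : D →+ k, f x ≠ 0 := by
  by_contra hcon
  push Not at hcon
  exact hx ((Module.forall_dual_apply_eq_zero_iff k x).1 fun f => hcon f.toAddMonoidHom)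

theorem tRLin : S_RLin := by
  intro p hp C _ Q hQ c hc
  haveI : Fact p.Prime := ⟨hp⟩
  have h0 : ∀ x : C ⧸ Q, p • x = 0 := by
    intro x
    obtain ⟨y, rfl⟩ := QuotientAddGroup.mk_surjective x
    rw [← QuotientAddGroup.mk_nsmul, QuotientAddGroup.eq_zero_iff]
    exact hQ y
  letI : Module (ZMod p) (C ⧸ Q) := AddCommGroup.zmodModule h0
  have hx : (QuotientAddGroup.mk c : C ⧸ Q) ≠ 0 := by
    intro h
    exact hc ((QuotientAddGroup.eq_zero_iff c).1 h)
  obtain ⟨φ, hφ⟩ := RLin_dual (ZMod p) (C ⧸ Q) (QuotientAddGroup.mk c) hx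
  refine ⟨φ.comp (QuotientAddGroup.mk' Q), ?_, ?_⟩
  · intro x hx
    have h1 : (QuotientAddGroup.mk' Q) x = 0 := (QuotientAddGroup.eq_zero_iff x).2 hx
    rw [AddMonoidHom.comp_apply, h1, map_zero]
  · exact hφ

end Pool.Agent.FW
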